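import Pool.Agent.Helper455.Bez.Main
import Pool.Agent.Helper455.Bez.Sanity

/-!
A distributive r-lattice with the weak union condition that is not representable
(a negative answer to Q1 of MP_173d24_al).

The definitions used in the statement are in `Pool/Agent/Helper455/Bez/Defs.lean`;
`Pool/Agent/Helper455/Bez/Sanity.lean` checks that the ideal lattice of every commutative
ring satisfies them.

Outline. Call a commutative semiring `S` (with `a ≤ b` iff `a + b = b`) good if `1` is its
greatest element, `a ≤ b` implies that `b` divides `a`, and `a c ≤ b c` implies
`a ≤ b + d` for some `d` with `d c = 0`. The ideal lattice of a good semiring is a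
distributive r-lattice with the weak union condition. If it were the ideal lattice of a
ring `R`, then every `y` in `R` would have a content `c y` in `S`, multiplicative and
ultrametric, with `c x ≤ c y` only if `y` divides `x`.

The semiring used here is a condensate, over an index set of cardinality `ℵ₃`, of a cube
of good semirings with vertices the subsets of `{1, 2, 3, 4}`; its elements are families of
values in `(ℤ × ℤ lexicographic) ∪ {∞}` that are determined by a finite set of indices.
Take elements `f_r` of content `t_r` at the level `{r}`. At the level `{r, s}` the element
`f_s` divides `f_r`, with quotient `g_rs`; at the level `{r, s, u}` put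
`w_rsu = g_rs g_su - g_ru`. The `w_rsu` satisfy
`w_123 g_34 + w_134 = w_124 + g_12 w_234`, but a free quadruple of indices makes the
contents of `w_123`, `w_134`, `w_234` vanish and that of `w_124` not vanish at the level
`{1, 2, 3, 4}`.
-/

namespace Pool.Agent.Results.MP_173d24_al.NotRepresentable

open Pool.Agent.Helper455.Bez

universe v

/-- There is a distributive r-lattice satisfying the weak union condition that is not
isomorphic, as a multiplicative lattice, to the lattice of ideals of any commutative ring
(in any universe). -/
theorem result : ∃ (L : Type) (_ : CompleteLattice L) (_ : CommMonoid L),
    IsRLattice L ∧ Distributive L ∧ WeakUnion L ∧ ¬ Representable.{0, v} L :=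
  main

end Pool.Agent.Results.MP_173d24_al.NotRepresentable
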